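import Mathlib
import Pool.Agent.Lib.MP_132c47_lc.Defs
import Pool.Agent.Lib.MP_132c47_lc.FN

set_option autoImplicit false

open Pool.Agent.Lib.MP_132c47_lc

namespace Pool.Agent.Results.MP_132c47_lc.Decidable

/-- For every positive integer `n` the existential theory of `ℤ^ab / n ℤ^ab` in the language of
rings is decidable: the set of numbers of quantifier-free formulas whose existential closure holds
in this ring is computable. -/
theorem result : ∀ n : ℕ, 0 < n → ComputablePred fun c : ℕ => ∃ φ : QF, φ.code = c ∧
    ∃ x : ℕ → Zab ⧸ Ideal.span {(n : Zab)}, φ.Sat x :=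
  fun _ hn => decidable_exists hn

end Pool.Agent.Results.MP_132c47_lc.Decidable
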